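import Pool.Agent.W838.DC.Stm3
import Pool.Agent.W838.DC.Basic

set_option autoImplicit false

namespace Pool.Agent.W924.DC

open Pool.Agent.W838.DC Pool.Agent.W838.DC.Sys

theorem good (p q x y : ℤ) (hp : -1 ≤ p ∧ p ≤ 1) (hq : -1 ≤ q ∧ q ≤ 1) (hx : -2 ≤ x ∧ x ≤ 2)
    (hy : -2 ≤ y ∧ y ≤ 2) (h : x * x + y * y - x * p * y = 4 - q * q) :
    x = 2 ∨ x = -2 ∨ y = 2 ∨ y = -2 ∨ (p = -1 ∧ (x + y = 2 ∨ x + y = -2)) ∨
      (p = 1 ∧ (x - y = 2 ∨ x - y = -2)) := by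
  obtain ⟨hx1, hx2⟩ := hx
  obtain ⟨hy1, hy2⟩ := hy
  obtain ⟨hp1, hp2⟩ := hp
  obtain ⟨hq1, hq2⟩ := hq
  interval_cases p <;> interval_cases q <;> interval_cases x <;> interval_cases y <;> omega

theorem qbd (p q x1 x2 x3 x4 : ℤ) (hp : -1 ≤ p ∧ p ≤ 1) (hq : -2 ≤ q ∧ q ≤ 2)
    (h1 : x1 * x1 + x2 * x2 - x1 * p * x2 = 4 - q * q)
    (h2 : x3 * x3 + x4 * x4 - x3 * p * x4 = 4 - q * q)
    (h3 : 4 - p * p = x2 * x2 + x4 * x4 - x2 * q * x4) : -1 ≤ q ∧ q ≤ 1 := by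
  have key : ∀ x y : ℤ, x * x + y * y - x * p * y = 0 → y = 0 := by
    intro x y h
    obtain ⟨hp1, hp2⟩ := hp
    interval_cases p
    · have h4 : (2 * x + y) * (2 * x + y) + 3 * (y * y) = 0 := by nlinarith [h]
      have h5 := mul_self_nonneg (2 * x + y)
      have h6 := mul_self_nonneg y
      have h7 : y * y = 0 := by omega
      simpa using h7
    · have h5 := mul_self_nonneg x
      have h6 := mul_self_nonneg y
      have h7 : y * y = 0 := by nlinarith [h]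
      simpa using h7
    · have h4 : (2 * x - y) * (2 * x - y) + 3 * (y * y) = 0 := by nlinarith [h]
      have h5 := mul_self_nonneg (2 * x - y)
      have h6 := mul_self_nonneg y
      have h7 : y * y = 0 := by omega
      simpa using h7
  by_contra hcon
  have hq2 : q = 2 ∨ q = -2 := by omega
  have e : 4 - q * q = 0 := by rcases hq2 with rfl | rfl <;> norm_num
  rw [e] at h1 h2
  have a1 := key _ _ h1
  have a2 := key _ _ h2
  rw [a1, a2] at h3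
  obtain ⟨hp1, hp2⟩ := hp
  interval_cases p <;> omega

variable {V X : Type*} [AddCommGroup V] (σ : Sys V X)

theorem two_bd {a b : V} (ha : a ∈ σ.Φ) (hb : b ∈ σ.Φ) : -2 ≤ σ.ip a b ∧ σ.ip a b ≤ 2 := by
  rcases σ.ip_cases ha hb with h | h | h | h | h
  · rw [h, σ.ip_self b hb]; omega
  · rw [h, σ.ip_neg, σ.ip_self b hb]; omega
  all_goals omega

theorem inpl {a b c : V} (ha : a ∈ σ.Φ) (hb : b ∈ σ.Φ) (hc : c ∈ σ.Φ) (q : ℤ)
    (hp : -1 ≤ σ.ip a b ∧ σ.ip a b ≤ 1) (hq : -1 ≤ q ∧ q ≤ 1)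
    (h : σ.ip a c * σ.ip a c + σ.ip b c * σ.ip b c - σ.ip a c * σ.ip a b * σ.ip b c =
      4 - q * q) : InPl σ a b c := by
  refine ⟨hc, ?_⟩
  rcases good _ q _ _ hp hq (two_bd σ ha hc) (two_bd σ hb hc) h with h | h | h | h | ⟨hp, h⟩ | ⟨hp, h⟩
  · exact Or.inl (σ.ip_eq_two ha hc h).symm
  · have := σ.ip_eq_neg_two ha hc h
    exact Or.inr (Or.inl (by rw [this, neg_neg]))
  · exact Or.inr (Or.inr (Or.inl (σ.ip_eq_two hb hc h).symm))
  · have := σ.ip_eq_neg_two hb hc h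
    exact Or.inr (Or.inr (Or.inr (Or.inl (by rw [this, neg_neg]))))
  · refine Or.inr (Or.inr (Or.inr (Or.inr (Or.inl ⟨hp, ?_⟩))))
    rw [← σ.ip_add] at h
    have hab := σ.add_mem ha hb hp
    rcases h with h | h
    · exact Or.inl (σ.ip_eq_two hab hc h).symm
    · have := σ.ip_eq_neg_two hab hc h
      exact Or.inr (by rw [this, neg_neg])
  · refine Or.inr (Or.inr (Or.inr (Or.inr (Or.inr ⟨hp, ?_⟩))))
    rw [← σ.ip_sub] at h
    have hab := σ.sub_mem ha hb hp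
    rcases h with h | h
    · exact Or.inl (σ.ip_eq_two hab hc h).symm
    · have := σ.ip_eq_neg_two hab hc h
      exact Or.inr (by rw [this, neg_neg])

theorem T_4C : S_4C σ := by
  intro a ha b hb c hc d hd hab hab' x hx
  have E : ∀ v w : V, σ.ip v a * σ.ip a w + σ.ip v b * σ.ip b w -
      σ.ip v a * σ.ip a b * σ.ip b w = σ.ip v c * σ.ip c w + σ.ip v d * σ.ip d w -
        σ.ip v c * σ.ip c d * σ.ip d w := by
    intro v w
    have h1 : σ.lab (σ.r a (σ.r b x)) v = σ.lab (σ.r c (σ.r d x)) v := by rw [hx]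
    rw [σ.lab_r a ha, σ.lab_r b hb, σ.lab_r c hc, σ.lab_r d hd] at h1
    have h2 := congrArg (fun z => σ.ip z (σ.lab x w)) h1
    simp only [σ.lab_ip, σ.ip_sub, σ.ip_zsmul] at h2
    linarith
  have hp := σ.ip_bd a ha b hb hab hab'
  have hq := two_bd σ hc hd
  have ec := E c c
  have ed := E d d
  have eb := E b b
  rw [σ.ip_symm c a, σ.ip_symm c b, σ.ip_symm d c, σ.ip_self c hc] at ec
  rw [σ.ip_symm d a, σ.ip_symm d b, σ.ip_symm d c, σ.ip_self d hd] at ed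
  rw [σ.ip_symm b a, σ.ip_symm c b, σ.ip_symm d b, σ.ip_self b hb] at eb
  have h1 : σ.ip a c * σ.ip a c + σ.ip b c * σ.ip b c - σ.ip a c * σ.ip a b * σ.ip b c =
      4 - σ.ip c d * σ.ip c d := by linarith
  have h2 : σ.ip a d * σ.ip a d + σ.ip b d * σ.ip b d - σ.ip a d * σ.ip a b * σ.ip b d =
      4 - σ.ip c d * σ.ip c d := by linarith
  have h3 : 4 - σ.ip a b * σ.ip a b = σ.ip b c * σ.ip b c + σ.ip b d * σ.ip b d -
      σ.ip b c * σ.ip c d * σ.ip b d := by linarith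
  have hq' := qbd _ _ _ _ _ _ hp hq h1 h2 h3
  exact ⟨inpl σ ha hb hc _ hp hq' h1, inpl σ ha hb hd _ hp hq' h2⟩

end Pool.Agent.W924.DC
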